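import Mathlib
import Pool.Agent.P.MP_6deb90_an.G.Main

namespace Pool.Agent.Results.MP_6deb90_an.LacunaryDisc

/-- A Hermite expansion with coefficient `a p ≠ 0`, lower coefficients at most `T` times as large
and at most `k` further terms of arbitrary higher indices and arbitrary complex coefficients has at
least `p` zeros, counted with multiplicity, in a disc whose radius depends only on `p`, `k`, `T`. -/
theorem result (p k : ℕ) (T : ℝ) :
    ∃ R : ℝ, ∀ (S : Finset ℕ) (a : ℕ → ℂ), S.card ≤ k → (∀ n ∈ S, p < n) → a p ≠ 0 →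
      (∀ ν < p, ‖a ν‖ ≤ T * ‖a p‖) →
      ∃ Q : Polynomial ℂ,
        (∀ z : ℂ, Q.eval z = ∑ ν ∈ Finset.range (p + 1) ∪ S,
          a ν * ((-1 : ℂ) ^ ν * Complex.exp (z ^ 2) *
            iteratedDeriv ν (fun w : ℂ => Complex.exp (-w ^ 2)) z)) ∧
        p ≤ Multiset.card (Q.roots.filter fun z => ‖z‖ ≤ R) := by
  obtain ⟨R, -, h⟩ := Pool.Agent.P.MP_6deb90_an.zeros_in_disc p k T
  refine ⟨R, fun S a h1 h2 h3 h4 => ⟨_, fun z => ?_, h S a h1 h2 h3 h4⟩⟩
  rw [Finset.sum_union (Finset.disjoint_left.mpr fun n hn hn' => by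
    have := h2 n hn'
    have := Finset.mem_range.mp hn
    omega)]
  simp only [Pool.Agent.P.MP_6deb90_an.hermite_eq, Pool.Agent.P.MP_6deb90_an.Ex,
    Pool.Agent.P.MP_6deb90_an.Ini, Polynomial.eval_add, Polynomial.eval_finsetSum,
    Polynomial.eval_mul, Polynomial.eval_C]

end Pool.Agent.Results.MP_6deb90_an.LacunaryDisc
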